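import Pool.Agent.H195.ET.Bases

/-!
# MP_d5a1e1_nt: sets closed under exchanges of digits

`rep A h n` is the number `r_{A,h}(n)` of multisets of `h` elements of `A` with sum `n`.
Fix a base `g ≥ 2` and an order `h ≥ 2`; the integers below `g ^ m` are written with `m` digits.

* `FewBlocks g β m B`: `B ⊆ [0, g ^ m)`, and for some partition of the `m` places into at most
  `β m` classes (arbitrary sets of places) `B` is closed under the exchange of two digits at places
  of the same class.
* `FewChains g β m B`: `B ⊆ [0, g ^ m)`, and the `m` places can be arranged, in any order, into at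
  most `β m` chains such that `B` is closed under the *sorting* exchanges of neighbours: if a digit
  of `b ∈ B` exceeds the digit at the preceding place of its chain, then the number obtained by
  exchanging the two digits is in `B`. (For instance `β m ≥ 1` and: whenever
  the digit at the place `k + 1` exceeds the digit at the place `k` they may be exchanged.)

1. Let `β log (h (g - 1) + 1) < h γ log g`. Then `max_{n ≤ h g ^ m} r_{B,h}(n) ≥ g ^ (κ m)` for
   all `m ≥ m₀` and all `B` with `FewBlocks g β m B` and at least `g ^ (γ m)` elements. The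
   constants `κ > 0` and `m₀` depend only on `g, h, γ, β`.
2. The same for `FewChains`, if `log (1 + g β) + g β log (1 / β) < γ log g`.
3. Let `A` be an asymptotic basis of order `h`, and for infinitely many `m` let the elements of
   `A` below `g ^ m` be covered by at most `g ^ (α m)` subsets `B` of `A` with `FewBlocks g β m B`
   (and `β log (h (g - 1) + 1) < (1 - h α) log g`), or with `FewChains g β m B`
   (and `h (log (1 + g β) + g β log (1 / β)) < (1 - h α) log g`). The partitions and the chains may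
   depend on `B`. Then `r_{A,h}(n) ≥ n ^ κ` for infinitely many `n`, for some `κ > 0`.
   (With one set `B = A ∩ [0, g ^ m)`, `α = 0`: the digits of the elements of `A` may
   be exchanged inside the blocks of a partition into at most `β m` blocks, where
   `β < log g / log (h (g - 1) + 1)`; this bound tends to `1` for `g → ∞`.)
-/

namespace Pool.Agent.Results.MP_d5a1e1_nt.DigitExchanges

open Filter H195.ET

theorem result (g h : ℕ) (hg : 2 ≤ g) (hh : 2 ≤ h) :
    (∀ γ β : ℝ, β * Real.log (h * (g - 1) + 1) < h * γ * Real.log g →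
      ∃ κ : ℝ, 0 < κ ∧ ∃ m₀ : ℕ, ∀ m ≥ m₀, ∀ B : Set ℕ, FewBlocks g β m B →
        (g : ℝ) ^ (γ * m) ≤ B.ncard → ∃ n ≤ h * g ^ m, (g : ℝ) ^ (κ * m) ≤ rep B h n) ∧
    (∀ γ β : ℝ, 0 < β → β ≤ 1 →
      Real.log (1 + g * β) + g * β * Real.log (1 / β) < γ * Real.log g →
      ∃ κ : ℝ, 0 < κ ∧ ∃ m₀ : ℕ, ∀ m ≥ m₀, ∀ B : Set ℕ, FewChains g β m B →
        (g : ℝ) ^ (γ * m) ≤ B.ncard → ∃ n ≤ h * g ^ m, (g : ℝ) ^ (κ * m) ≤ rep B h n) ∧
    (∀ (α β : ℝ) (A : Set ℕ), (∀ᶠ n in atTop, 1 ≤ rep A h n) →
      ((β * Real.log (h * (g - 1) + 1) < (1 - h * α) * Real.log g ∧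
          ∃ᶠ m : ℕ in atTop, Covered g α m (FewBlocks g β m) A) ∨
        (0 < β ∧ β ≤ 1 ∧
          h * (Real.log (1 + g * β) + g * β * Real.log (1 / β)) < (1 - h * α) * Real.log g ∧
          ∃ᶠ m : ℕ in atTop, Covered g α m (FewChains g β m) A)) →
      ∃ κ : ℝ, 0 < κ ∧ ∃ᶠ n : ℕ in atTop, (n : ℝ) ^ κ ≤ rep A h n) := by
  refine ⟨fun γ β => blocks_large g h hg hh γ β,
    fun γ β h0 h1 h2 => chains_large g h hg hh γ β h0 h1 h2, ?_⟩
  intro α β A hA hcase
  have hg1 : (1 : ℝ) < g := by exact_mod_cast (by omega : 1 < g)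
  have hlam : 0 < Real.log g := Real.log_pos hg1
  have hh0 : (0 : ℝ) < h := by exact_mod_cast (by omega : 0 < h)
  rcases hcase with ⟨hlt, hC⟩ | ⟨hβ0, hβ1, hlt, hC⟩
  · obtain ⟨γ, hγ1, hγ2⟩ : ∃ γ : ℝ, β * Real.log (h * (g - 1) + 1) < h * γ * Real.log g ∧
        h * (α + γ) < 1 := by
      set q := Real.log ((h : ℝ) * (g - 1) + 1)
      set u := β * q / (h * Real.log g) with hu
      have h1 : u < (1 - h * α) / h := by
        rw [hu, div_lt_div_iff₀ (by positivity) hh0]
        calc β * q * h < (1 - h * α) * Real.log g * h := by gcongr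
          _ = _ := by ring
      obtain ⟨γ, h2, h3⟩ := exists_between h1
      refine ⟨γ, ?_, ?_⟩
      · rw [hu, div_lt_iff₀ (by positivity)] at h2
        linarith
      · rw [lt_div_iff₀ hh0] at h3
        linarith
    exact rep_bound_basis hg hγ2 (fun m B => FewBlocks g β m B)
      (fun m B hB a ha => by obtain ⟨π, -, h1⟩ := hB; exact (h1 a ha).1)
      (blocks_large g h hg hh γ β hγ1) hA hC
  · obtain ⟨γ, hγ1, hγ2⟩ : ∃ γ : ℝ,
        Real.log (1 + g * β) + g * β * Real.log (1 / β) < γ * Real.log g ∧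
        h * (α + γ) < 1 := by
      set q := Real.log (1 + g * β) + g * β * Real.log (1 / β)
      have h1 : q / Real.log g < (1 - h * α) / h := by
        rw [div_lt_div_iff₀ hlam hh0]
        linarith
      obtain ⟨γ, h2, h3⟩ := exists_between h1
      refine ⟨γ, ?_, ?_⟩
      · rwa [div_lt_iff₀ hlam] at h2
      · rw [lt_div_iff₀ hh0] at h3
        linarith
    exact rep_bound_basis hg hγ2 (fun m B => FewChains g β m B)
      (fun m B hB a ha => by obtain ⟨D, p, -, -, h1⟩ := hB; exact (h1 a ha).1)
      (chains_large g h hg hh γ β hβ0 hβ1 hγ1) hA hC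

end Pool.Agent.Results.MP_d5a1e1_nt.DigitExchanges
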