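import Pool.Agent.H601.GV.Bdd
import Pool.Agent.H601.GV.Gf
import Pool.Agent.H601.T4.Density

/-!
# MP_d5a1e1_nt: the essential maxima of the representation functions of a set, for all orders

`rep A k n = r_{A,k}(n)` is the number of multisets of `k` elements of `A` with sum `n`, and the
essential maximum `essMax A k` is the infimum, over all finite sets `F`, of the supremum of
`r_{A ∖ F,k}`: the part of the maximum which the removal of finitely many elements cannot lower.

1. (Characterization.)  A sequence `γ 1, γ 2, …` in `{0, 1, 2, …, ∞}` is the sequence of the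
   essential maxima of some infinite set if and only if `γ 1 = 1` and `γ (k + l) ≥ γ k γ l` for all
   `k, l ≥ 1`.
2. (Bounded representation functions.)  `r_{A,h}` is bounded if and only if `essMax A h < ∞`.  If
   `r_{A,h}(n) ≤ C` for all large `n` then `(essMax A k) ^ ⌊h/k⌋ ≤ C` for all `k ≤ h`.  If `A` is an
   asymptotic basis of order `h ≥ 1` then `essMax A k = ∞` for all `k > h`; the conjecture says that
   this also holds for `k = h`.  If `h ≥ 2` then `essMax A h ≥ 3`: after the removal of any finite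
   set of elements from an asymptotic basis of order `h` some number still has at least three
   representations.
3. (Sharp threshold.)  Let `2 ≤ k ≤ h`.  All the sets `A` with `r_{A,h}(n) ≤ C` for all large `n`
   have `essMax A k ≤ g`, that is, are `B_k[g]`-sets after the removal of finitely many elements, if
   and only if `C < (g + 1) ^ ⌊h/k⌋`.
4. (Number of elements.)  If `r_{A,h}(n) < (g + 1) ^ (m + 1)` for ALL `n` and `1 ≤ k`,
   `k (m + 1) ≤ h`, at most `(g + 1) k m` elements have to be removed.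
5. (Coincidences of all orders.)  Let `r_{A,h} ≤ C`, let `F ⊆ A` be any finite set with at least
   `h` elements, and let `p_i` be the proportion of the `i`-element subsets `I` of `F` for which
   there are `i` elements of `A ∖ I` (repetitions allowed) with the same sum as `I`.  Then
   `∑_{i=1}^h C(h, i) p_i ≤ C - 1`.

Proofs.  Supermultiplicativity: representations with elements `≤ n` can be combined with
representations with elements `> n`.  Realization: the set consists of blocks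
`D_i B_i ^ j`, `D_i (B_i ^ G_i - (κ_i - 1) B_i ^ j)`, `0 ≤ j < G_i`, in which exactly `G_i` disjoint
`κ_i`-element multisets have the same sum, and which have no other relations of small order; every
order `k` is equal to `κ_i` for infinitely many `i`, and `G_i = min (γ (κ_i), i + 1)`.  The upper bound
is an induction which removes one of the `G_i` multisets.  For `essMax A h ≥ 3` let
`B = A ∖ F`, `r_{B,h} ≤ 2`, `x = 1 - 1 / 2 m`, `f(z) = ∑ (x z) ^ b` over `b ∈ B` and
`a = ∑ x ^ (2 b)`, so that `a ^ h ≥ (1 - o(1)) h! m`.  Away from `z = 1` the mean of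
`|f| ^ (2 (h - 1))` is at least `(1 - o(1)) (h - 1)! a ^ (h - 1)`, so the mean of `|f| ^ (2 h)` is at
least `(3 / 10) h! a ^ h`; but `f ^ h = (3 / 2) h! / (1 - x z)` up to an error with coefficients
`± h! / 2` (almost all), so this mean is at most `(1 + o(1)) h! ^ 2 m / 4` (a method of Erdős and
Fuchs type).
-/

set_option autoImplicit false

namespace Pool.Agent.Results.MP_d5a1e1_nt.EssentialMaxima

/-- `rep A h n = r_{A,h}(n)`: the number of multisets of `h` elements of `A` with sum `n` -/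
noncomputable def rep (A : Set ℕ) (h n : ℕ) : ℕ :=
  Set.ncard {s : Multiset ℕ | Multiset.card s = h ∧ (∀ a ∈ s, a ∈ A) ∧ s.sum = n}

/-- the essential maximum of `r_{A,k}`: the infimum over all finite sets `F` of the supremum of
`r_{A ∖ F,k}` -/
noncomputable def essMax (A : Set ℕ) (k : ℕ) : ℕ∞ :=
  ⨅ F : Finset ℕ, ⨆ n : ℕ, (rep (A \ F) k n : ℕ∞)

/-- the number of the subsets `I` of `F` with `i` elements for which there is a multiset `Q` of `i`
elements of `A`, none of them in `I`, with the same sum -/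
noncomputable def coinc (A : Set ℕ) (F : Finset ℕ) (i : ℕ) : ℕ :=
  {I : Finset ℕ | I ⊆ F ∧ I.card = i ∧ ∃ Q : Multiset ℕ, Multiset.card Q = i ∧
    (∀ a ∈ Q, a ∈ A ∧ a ∉ I) ∧ Q.sum = ∑ a ∈ I, a}.ncard

theorem result :
    (∀ γ : ℕ → ℕ∞, (∃ A : Set ℕ, A.Infinite ∧ ∀ k, 1 ≤ k → essMax A k = γ k) ↔
      (γ 1 = 1 ∧ ∀ k l, 1 ≤ k → 1 ≤ l → γ k * γ l ≤ γ (k + l))) ∧
    (∀ (A : Set ℕ) (h : ℕ), (∃ C, ∀ n, rep A h n ≤ C) ↔ essMax A h ≠ ⊤) ∧
    (∀ (A : Set ℕ) (h k C : ℕ), 1 ≤ k → k ≤ h → (∃ n₀, ∀ n, n₀ ≤ n → rep A h n ≤ C) →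
      essMax A k ^ (h / k) ≤ C) ∧
    (∀ (A : Set ℕ) (h k : ℕ), 1 ≤ h → h < k → (∃ n₀, ∀ n, n₀ ≤ n → 1 ≤ rep A h n) →
      essMax A k = ⊤) ∧
    (∀ (A : Set ℕ) (h : ℕ), 2 ≤ h → (∃ n₀, ∀ n, n₀ ≤ n → 1 ≤ rep A h n) → 3 ≤ essMax A h) ∧
    (∀ h k g C : ℕ, 2 ≤ k → k ≤ h →
      ((∀ A : Set ℕ, (∃ n₀, ∀ n, n₀ ≤ n → rep A h n ≤ C) → essMax A k ≤ g) ↔
        C < (g + 1) ^ (h / k))) ∧
    (∀ (A : Set ℕ) (h k g m : ℕ), 1 ≤ k → k * (m + 1) ≤ h →
      (∀ n, rep A h n < (g + 1) ^ (m + 1)) →
      ∃ F : Finset ℕ, F.card ≤ (g + 1) * k * m ∧ ∀ n, rep (A \ F) k n ≤ g) ∧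
    (∀ (A : Set ℕ) (h C : ℕ), (∀ n, rep A h n ≤ C) → ∀ F : Finset ℕ, (∀ a ∈ F, a ∈ A) →
      h ≤ F.card →
      ∑ i ∈ Finset.Icc 1 h, (h.choose i : ℝ) * ((coinc A F i : ℝ) / (F.card.choose i : ℝ)) + 1
        ≤ C) := by
  refine ⟨?_, ?_, ?_, ?_, ?_, ?_, ?_, ?_⟩
  · intro γ
    exact Pool.Agent.H601.GV.essMax_iff γ
  · intro A h
    exact Pool.Agent.H601.GV.bounded_iff A h
  · rintro A h k C hk hkh ⟨n₀, hA⟩
    exact Pool.Agent.H601.GV.essMax_pow_le hk hkh hA
  · rintro A h k hh hk ⟨n₀, hA⟩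
    exact Pool.Agent.H601.GV.essMax_top hh hk hA
  · rintro A h hh ⟨n₀, hA⟩
    exact Pool.Agent.H601.GV.three_le_essMax hh hA
  · intro h k g C hk hkh
    exact Pool.Agent.H601.GV.threshold hk hkh
  · intro A h k g m hk hkm hA
    exact Pool.Agent.H601.GV.almost_quant hk hkm hA
  · intro A h C hA F hF hc
    exact Pool.Agent.H601.T4.density hA F hF hc

end Pool.Agent.Results.MP_d5a1e1_nt.EssentialMaxima
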