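import Pool.Agent.H601.T3.Cor

/-!
# MP_d5a1e1_nt: finite unions of sets with bounded representation functions of even order `2 k`

`rep A h n` is the number `r_{A,h}(n)` of multisets of `h` elements of `A` with sum `n`, `cnt A x`
the number of elements of `A` less than `x`, and `dis A k M d` the number of pairs `(X, Y)` of
disjoint multisets of `k` elements of `A` less than `M` with `∑ X = ∑ Y + d`.

1. Let `A = A_1 ∪ ⋯ ∪ A_m` have `A(x) ≥ (x / C) ^ (1 / 2 k)` for all `x ≥ x₀` (for instance an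
   asymptotic basis of order `2 k`), with `r_{A_i, 2 k} ≤ K` for every `i`. For all `g ≥ 1` and
   `N ≥ exp (β m ^ (2 k) g)` at least `N exp (-β m ^ (2 k) g)` of the `d ≤ N` have at least `g`
   representations `d = ∑ X - ∑ Y` by disjoint multisets `X, Y` of `k` elements `< N` of one of the
   sets `A_i`; `β` depends only on `k, K, C, x₀`.
2. So the conjecture of Erdős and Turán of order `2 k`, also in the stronger form, holds for all
   subsets `A` of finite unions of sets `S_i` for which the lower density of such popular `d` is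
   zero for some `g`: `r_{A ∩ S_i, 2 k}` is unbounded for some `i`.
3. A union `A` of `m` sets with `r_{A_i, 2 k} ≤ 1` (`B_{2 k}`-sets) satisfies
   `A(x) ^ (2 k) ≤ m ^ (2 k) x / (c log N)` for some `N ≤ x ≤ N ^ 2`, for every `N ≥ 4`.
-/

set_option autoImplicit false

namespace Pool.Agent.Results.MP_d5a1e1_nt.EvenOrderColourings

open Finset Filter Pool.Agent.H601 Pool.Agent.H601.T3

open scoped Classical in
theorem result (k : ℕ) (hk : 1 ≤ k) :
    -- 1. popular differences in one of the sets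
    (∀ K C x₀ : ℕ, ∃ β : ℝ, 1 ≤ β ∧ ∀ (m : ℕ) (A : Fin m → Set ℕ),
      (∀ i n, rep (A i) (2 * k) n ≤ K) →
      (∀ x ≥ x₀, x ≤ C * cnt (⋃ i, A i) x ^ (2 * k)) →
      ∀ g : ℕ, 1 ≤ g → ∀ N : ℕ, Real.exp (β * (m ^ (2 * k) * g)) ≤ N →
        N * Real.exp (-(β * (m ^ (2 * k) * g))) ≤
          (#{d ∈ Icc 1 N | ∃ i, g ≤ dis (A i) k N d} : ℝ)) ∧
    -- 2. the conjecture for unions of sets with few popular differences
    (∀ (m g : ℕ) (S : Fin m → Set ℕ), 1 ≤ g →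
      (∀ ε : ℝ, 0 < ε → ∃ᶠ N : ℕ in atTop,
        (#{d ∈ Icc 1 N | ∃ i, g ≤ dis (S i) k N d} : ℝ) ≤ ε * N) →
      ∀ A : Set ℕ, A ⊆ ⋃ i, S i →
      ((∃ n₀ : ℕ, ∀ n ≥ n₀, 1 ≤ rep A (2 * k) n) ∨
        (∃ C x₀ : ℕ, ∀ x ≥ x₀, x ≤ C * cnt A x ^ (2 * k))) →
      ∃ i, ∀ K : ℕ, ∃ n, K < rep (A ∩ S i) (2 * k) n) ∧
    -- 3. unions of `B_{2k}`-sets
    (∃ c : ℝ, 0 < c ∧ ∀ (m : ℕ) (A : Fin m → Set ℕ), (∀ i n, rep (A i) (2 * k) n ≤ 1) →
      ∀ N : ℕ, 4 ≤ N → ∃ x : ℕ, N ≤ x ∧ x ≤ N ^ 2 ∧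
        c * (cnt (⋃ i, A i) x : ℝ) ^ (2 * k) * Real.log N ≤ (m : ℝ) ^ (2 * k) * x) := by
  refine ⟨fun K C x₀ => ?_, fun m g S hg hS A hAS hA => ?_, b2k k hk⟩
  · obtain ⟨β, h1, h2⟩ := popular k hk K C x₀
    refine ⟨β, h1, fun m A hA hc g hg N hN => ?_⟩
    have := h2 m A hA hc g hg N hN
    convert this
  · refine erdos_turan k hk m g S hg (fun ε hε => ?_) A hAS hA
    refine (hS ε hε).mono fun N hN => ?_
    convert hN

end Pool.Agent.Results.MP_d5a1e1_nt.EvenOrderColourings
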