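import Pool.Agent.H601.T8.Main

/-!
# MP_d5a1e1_nt: the Erdős–Turán conjecture for morphic sets

Let `φ` be a morphism on a finite alphabet `S` (letters are mapped to words; `φ` may erase
letters), `a` a letter such that `φ(a)` begins with `a`, and `M ⊆ S`. The words `φ^l(a)` are
prefixes of each other; `morphic φ a M` is the set of the positions of the letters of `M` in their
limit. These are the morphic sets. Examples: the `k`-automatic sets (all `φ(x)` of length `k`), the
sets recognised by finite automata in Fibonacci and other Pisot numeration systems, and in all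
numeration systems of Dumont and Thomas. `iter φ l x` is the word `φ^l(x)`, and `rep B h n` is
`r_{B,h}(n)`, the number of multisets of `h` elements of `B` with sum `n`.

`PowerGrowth A` says: for every set `B ⊇ A` and every `h ≥ 2` there is `c > 0` such that
`r_{B,h}(n) ≥ n ^ c` for infinitely many `n`. We prove for all morphic sets `A = morphic φ a M`:

1. `A` has at most `(E (l + 1)) ^ s` elements below `|φ^l(a)|` for all `l`, or `PowerGrowth A`.
2. If `|φ^l(a)|` grows exponentially, then `A` has at most `C (log N) ^ s` elements below `N`, or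
   `PowerGrowth A`.
3. If `A` is an asymptotic basis of some order, then `PowerGrowth A`, or `|φ^l(a)|` grows only
   polynomially (`≤ C (l + 1) ^ s`).
4. Let `B` be a finite union of morphic sets given by exponentially growing morphisms (on
   different alphabets). If `B` is an asymptotic basis of some order, or if it has at least `N ^ ε`
   elements below `N` for arbitrarily large `N` (for instance `b_n ≤ C n ^ D`), then
   `PowerGrowth B`.

The condition of exponential growth cannot be omitted in 2 and 4: the set of the squares is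
morphic, with `|φ^l(a)|` of order `l ^ 2`, and its representation functions of order 2 are
`n ^ o(1)`.

Proof. Call a letter useful if it occurs in some `φ^l(a)` and some `φ^l(x)` has a letter of `M`.
If `x` occurs twice in `φ^p(x)`, `p ≥ 1`, for a useful `x`, then `A` contains sets
`o + {c + ∑ ε_i δ_i}` with `2 ^ t` elements below `C E ^ (p t)`; the numbers `δ_i` are the lengths
of iterates of a factor of `φ^p(x)`, and different `ε` give different positions. These sets are
symmetric. Otherwise at most one letter of `φ(x)` (with multiplicity) can lead back to `x`, for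
all useful `x`, and the number of the marked letters in `φ^l(x)` is at most
`(E (l + 1)) ^ ρ(x)`, where `ρ(x)` is the number of useful letters that can be reached from `x`.
-/

set_option autoImplicit false

open Filter

namespace Pool.Agent.Results.MP_d5a1e1_nt.MorphicSets

open Pool.Agent.H601 Pool.Agent.H601.T8

/-- `A` is an asymptotic basis of order `k` -/
def IsBasis (A : Set ℕ) (k : ℕ) : Prop := ∃ n₀ : ℕ, ∀ n, n₀ ≤ n → 1 ≤ rep A k n

theorem basis_poly {S : Type} [Finite S] (φ : S → List S) (a : S) (M : Set S)
    (ha : ∃ u, φ a = a :: u) (k : ℕ) (hb : IsBasis (morphic φ a M) k) :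
    PowerGrowth (morphic φ a M) ∨ ∃ C s : ℕ, ∀ l, (iter φ l a).length ≤ C * (l + 1) ^ s := by
  rcases dichotomy (M := M) ha with ⟨E, s, h⟩ | h
  · right
    obtain ⟨n₀, hn₀⟩ := hb
    refine ⟨n₀ + E ^ (s * k), s * k, fun l => ?_⟩
    have h1 := count_of_basis hn₀ (iter φ l a).length
    have h2 := Nat.pow_le_pow_left (h l) k
    have h3 : ((E * (l + 1)) ^ s) ^ k = E ^ (s * k) * (l + 1) ^ (s * k) := by
      rw [← pow_mul, mul_pow]
    rw [h3] at h2
    have h4 : 1 ≤ (l + 1) ^ (s * k) := Nat.one_le_pow _ _ (by omega)
    have h5 : n₀ ≤ n₀ * (l + 1) ^ (s * k) := Nat.le_mul_of_pos_right _ h4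
    rw [Nat.add_mul]
    omega
  · exact Or.inl h

theorem result :
    (∀ (S : Type) [Finite S] (φ : S → List S) (a : S) (M : Set S), (∃ u, φ a = a :: u) →
      -- 1
      ((∃ E s : ℕ, ∀ l, (morphic φ a M ∩ Set.Iio (iter φ l a).length).ncard ≤
          (E * (l + 1)) ^ s) ∨ PowerGrowth (morphic φ a M)) ∧
      -- 2
      (Exponential φ a → Polylog (morphic φ a M) ∨ PowerGrowth (morphic φ a M)) ∧
      -- 3
      (∀ k, IsBasis (morphic φ a M) k → PowerGrowth (morphic φ a M) ∨
        ∃ C s : ℕ, ∀ l, (iter φ l a).length ≤ C * (l + 1) ^ s)) ∧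
    -- 4
    (∀ (ι : Type) [Finite ι] (S : ι → Type) [∀ i, Finite (S i)] (φ : ∀ i, S i → List (S i))
      (a : ∀ i, S i) (M : ∀ i, Set (S i)), (∀ i, ∃ u, φ i (a i) = a i :: u) →
      (∀ i, Exponential (φ i) (a i)) → ∀ B : Set ℕ, B = ⋃ i, morphic (φ i) (a i) (M i) →
      ((∃ k, IsBasis B k) ∨
        ∃ ε : ℝ, 0 < ε ∧ ∃ᶠ N : ℕ in atTop, (N : ℝ) ^ ε ≤ ((B ∩ Set.Iio N).ncard : ℝ)) →
      PowerGrowth B) := by
  have h2 : ∀ (S : Type) [Finite S] (φ : S → List S) (a : S) (M : Set S), (∃ u, φ a = a :: u) →
      Exponential φ a → Polylog (morphic φ a M) ∨ PowerGrowth (morphic φ a M) := by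
    intro S _ φ a M ha hexp
    rcases dichotomy (M := M) ha with ⟨E, s, h⟩ | h
    · exact Or.inl (polylog_of_poly hexp h)
    · exact Or.inr h
  refine ⟨fun S _ φ a M ha => ⟨dichotomy ha, h2 S φ a M ha, basis_poly φ a M ha⟩, ?_⟩
  intro ι _ S _ φ a M ha hexp B hB hd
  subst hB
  have hA := fun i => h2 (S i) (φ i) (a i) (M i) (ha i) (hexp i)
  rcases hd with ⟨k, n₀, hn₀⟩ | ⟨ε, hε, hd⟩
  · obtain ⟨ε, hε, hd⟩ := dense_of_basis hn₀
    exact union_growth _ hA ε hε hd
  · exact union_growth _ hA ε hε hd

end Pool.Agent.Results.MP_d5a1e1_nt.MorphicSets
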